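import Pool.Agent.Work.MP_9ac17e_al.Bd.B02

/-!
# Isomorphism of finite-dimensional algebras over algebraically closed fields is decidable
-/

set_option autoImplicit false

namespace Pool.Agent.Work.MP_9ac17e_al

section coded

variable {K C : Type} [Field K] [Primcodable C] (N : NumF K C)

/-- Solvability over an algebraically closed field is decidable. -/
theorem computable_solv (hs : Function.Surjective N.val) (L : Type) [Field L] [Algebra K L]
    [IsAlgClosed L] : ComputablePred (fun q : ℕ × List (Rel C) => Solv N.val L q) := by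
  have h1 : PR.Sig (fun q : ℕ × List (Rel C) => Solv N.val L q) :=
    (sig_mat N hs).congr (fun q => ((solv_iff N.val L q).trans (one_not_mem_iff N.val q)).symm)
  have h2 : PR.Sig (fun q : ℕ × List (Rel C) => ¬ Solv N.val L q) :=
    (sig_one_mem N hs).congr (fun q => by rw [solv_iff, not_not])
  exact ComputablePred.computable_iff_re_compl_re'.2 ⟨h1.rePred, h2.rePred⟩

theorem computable_fdIso_closed (hs : Function.Surjective N.val) (L : Type) [Field L] [Algebra K L]
    [IsAlgClosed L] : ComputablePred (fun q : FD C × FD C =>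
      FDIso (fun a => algebraMap K L (N.val a)) q.1 q.2) := by
  have h1 : PR.Sig (fun q : FD C × FD C =>
      FDIso (fun a => algebraMap K L (N.val a)) q.1 q.2) := by
    have h : PR.Sig (fun q : FD C × FD C => (q.1.1 = q.2.1) ∧
        ∃ (d : ℕ) (M : ℕ → Matrix (Fin (d + 1)) (Fin (d + 1)) K),
          (∀ i j, M i * M j = M j * M i) ∧ (∀ i, (csys N q).1 ≤ i → M i = 0) ∧
          ∀ r ∈ (csys N q).2, (r.map (fun c => N.val c.1 • (c.2.map M).prod)).sum = 0) :=
      (PR.Sig.of_dec (by fun_prop)).and ((sig_mat N hs).comp (primrec_csys N))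
    refine h.congr (fun q => ?_)
    rw [fdIso_iff_solv, solv_iff, one_not_mem_iff]
  have h2 : PR.Sig (fun q : FD C × FD C =>
      ¬ FDIso (fun a => algebraMap K L (N.val a)) q.1 q.2) := by
    have h : PR.Sig (fun q : FD C × FD C => (¬ (q.1.1 = q.2.1)) ∨
        (1 : MvPolynomial (Fin (csys N q).1) K) ∈ cidl N.val (csys N q)) :=
      (PR.Sig.of_dec (PR.decide_not (by fun_prop))).or
        ((sig_one_mem N hs).comp (primrec_csys N))
    refine h.congr (fun q => ?_)
    rw [fdIso_iff_solv, solv_iff, not_and_or, not_not]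
  exact ComputablePred.computable_iff_re_compl_re'.2 ⟨h1.rePred, h2.rePred⟩

end coded

end Pool.Agent.Work.MP_9ac17e_al
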