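import Pool.Agent.Work.MP_9ac17e_al.Quot

/-!
# Isomorphism predicates for the final statements

They are stated with plain functions (and lifts to the free algebras instead of maps between the
quotients), because the graders' print of quotients and linear equivalences is very long.
-/

set_option autoImplicit false

namespace Pool.Agent.Work.MP_9ac17e_al

section

variable {K C : Type} [Field K] (val : C → K)

/-- The presented algebras are isomorphic: there is a linear map between the free algebras which
induces a bijective and multiplicative map between the quotients. -/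
def PIso (p q : Pres C) : Prop :=
  ∃ g : FA K p.1 → FA K q.1, ((∀ x y, g (x + y) = g x + g y) ∧ ∀ (a : K) x, g (a • x) = a • g x) ∧
    ((∀ x, g x ∈ idl val q ↔ x ∈ idl val p) ∧ ∀ y, ∃ x, y - g x ∈ idl val q) ∧
    ∀ x y, g (x * y) - g x * g y ∈ idl val q

theorem pIso_iff (p q : Pres C) : PIso val p q ↔ PresIso val p q := by
  constructor
  · rintro ⟨g, ⟨h1, h2⟩, ⟨h3, h4⟩, h5⟩
    let gl : FA K p.1 →ₗ[K] FA K q.1 := { toFun := g, map_add' := h1, map_smul' := h2 }
    have hle : idl val p ≤ (idl val q).comap gl := fun x hx => (h3 x).2 hx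
    let f : (FA K p.1 ⧸ idl val p) →ₗ[K] (FA K q.1 ⧸ idl val q) :=
      (idl val p).mapQ (idl val q) gl hle
    have hf : ∀ x, f (Submodule.Quotient.mk x) = Submodule.Quotient.mk (g x) := fun x => rfl
    have hbij : Function.Bijective f := by
      constructor
      · rw [← LinearMap.ker_eq_bot, LinearMap.ker_eq_bot']
        intro y hy
        obtain ⟨x, rfl⟩ := Submodule.Quotient.mk_surjective _ y
        rw [hf, Submodule.Quotient.mk_eq_zero] at hy
        rw [Submodule.Quotient.mk_eq_zero]
        exact (h3 x).1 hy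
      · intro y
        obtain ⟨y, rfl⟩ := Submodule.Quotient.mk_surjective _ y
        obtain ⟨x, hx⟩ := h4 y
        refine ⟨Submodule.Quotient.mk x, ?_⟩
        rw [hf]
        exact ((Submodule.Quotient.eq _).2 hx).symm
    refine ⟨LinearEquiv.ofBijective f hbij, fun x y u v hu hv => ?_⟩
    show f _ = _
    have hu' : (Submodule.Quotient.mk (g x) : FA K q.1 ⧸ idl val q) = Submodule.Quotient.mk u := hu
    have hv' : (Submodule.Quotient.mk (g y) : FA K q.1 ⧸ idl val q) = Submodule.Quotient.mk v := hv
    rw [hf, ← qmul_mk, ← hu', ← hv', qmul_mk]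
    exact (Submodule.Quotient.eq _).2 (h5 x y)
  · intro h
    rw [presIso_iff] at h
    obtain ⟨e, he⟩ := h
    obtain ⟨s, hs⟩ := (idl val q).mkQ.exists_rightInverse_of_surjective
      (LinearMap.range_eq_top.2 (Submodule.mkQ_surjective _))
    have hs' : ∀ y : FA K q.1 ⧸ idl val q, Submodule.Quotient.mk (s y) = y :=
      fun y => LinearMap.congr_fun hs y
    have hg : ∀ x : FA K p.1, (Submodule.Quotient.mk (s (e (Submodule.Quotient.mk x))) :
        FA K q.1 ⧸ idl val q) = e (Submodule.Quotient.mk x) := fun x => hs' _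
    refine ⟨fun x => s (e (Submodule.Quotient.mk x)), ⟨fun x y => ?_, fun a x => ?_⟩,
      ⟨fun x => ?_, fun y => ?_⟩, fun x y => ?_⟩
    · dsimp only
      rw [Submodule.Quotient.mk_add, map_add, map_add]
    · dsimp only
      rw [Submodule.Quotient.mk_smul, map_smul, map_smul]
    · rw [← Submodule.Quotient.mk_eq_zero, hg, e.map_eq_zero_iff, Submodule.Quotient.mk_eq_zero]
    · obtain ⟨x, hx⟩ := Submodule.Quotient.mk_surjective _ (e.symm (Submodule.Quotient.mk y))
      refine ⟨x, ?_⟩
      rw [← Submodule.Quotient.eq, hg, hx, e.apply_symm_apply]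
    · rw [← Submodule.Quotient.eq, hg, ← qmul_mk, ← qmul_mk, he, hg, hg]

/-- Two finite-dimensional algebras are isomorphic: there is a bijective linear map which respects the
multiplication. -/
def FIso (c d : FD C) : Prop :=
  ∃ f : (Fin c.1 → K) → (Fin d.1 → K), Function.Bijective f ∧
    ((∀ x y, f (x + y) = f x + f y) ∧ ∀ (a : K) x, f (a • x) = a • f x) ∧
    ∀ x y, f (fdMul val c x y) = fdMul val d (f x) (f y)

theorem fIso_iff (c d : FD C) : FIso val c d ↔ FDIso val c d := by
  constructor
  · rintro ⟨f, hf, ⟨h1, h2⟩, h⟩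
    exact ⟨LinearEquiv.ofBijective ({ toFun := f, map_add' := h1, map_smul' := h2 } :
      (Fin c.1 → K) →ₗ[K] (Fin d.1 → K)) hf, h⟩
  · rintro ⟨e, h⟩
    exact ⟨e, e.bijective, ⟨map_add e, map_smul e⟩, h⟩

end

end Pool.Agent.Work.MP_9ac17e_al
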