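import Pool.Agent.Work.MP_9ac17e_al.Defs

/-!
# The presented algebra and its universal property
-/

set_option autoImplicit false

namespace Pool.Agent.Work.MP_9ac17e_al

open TensorProduct

section quot

variable {K C : Type} [Field K] (val : C → K)

/-- The generators of the free algebra. -/
noncomputable def gen {K : Type} [Field K] {n : ℕ} (i : Fin n) : FA K n :=
  MonoidAlgebra.single (FreeMagma.of i) (1 : K)

theorem idl_mul_left (p : Pres C) (a : FA K p.1) {x : FA K p.1} (h : x ∈ idl val p) :
    a * x ∈ idl val p := by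
  rw [idl, Submodule.mem_sInf] at h ⊢
  exact fun S hS => (hS.2 a x (h S hS)).1

theorem idl_mul_right (p : Pres C) (a : FA K p.1) {x : FA K p.1} (h : x ∈ idl val p) :
    x * a ∈ idl val p := by
  rw [idl, Submodule.mem_sInf] at h ⊢
  exact fun S hS => (hS.2 a x (h S hS)).2

theorem rel_mem_idl (p : Pres C) {r : Rel C} (h : r ∈ p.2) : sem val p.1 r ∈ idl val p := by
  rw [idl, Submodule.mem_sInf]
  exact fun S hS => hS.1 r h

theorem idl_le (p : Pres C) (S : Submodule K (FA K p.1)) (h1 : ∀ r ∈ p.2, sem val p.1 r ∈ S)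
    (h2 : ∀ a x : FA K p.1, x ∈ S → a * x ∈ S ∧ x * a ∈ S) : idl val p ≤ S :=
  sInf_le ⟨h1, h2⟩

/-- The multiplication of the free algebra as a bilinear map. -/
noncomputable def fmul (K : Type) [Field K] (n : ℕ) : FA K n →ₗ[K] FA K n →ₗ[K] FA K n :=
  LinearMap.mk₂ K (fun x y => x * y) add_mul (fun c x y => smul_mul_assoc c x y) mul_add
    (fun c x y => mul_smul_comm c x y)

/-- The multiplication of the presented algebra. -/
noncomputable def qmul (p : Pres C) :
    (FA K p.1 ⧸ idl val p) →ₗ[K] (FA K p.1 ⧸ idl val p) →ₗ[K] (FA K p.1 ⧸ idl val p) :=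
  (idl val p).liftQ
    { toFun := fun x => (idl val p).mapQ (idl val p) (fmul K p.1 x)
        (fun _ hy => idl_mul_left val p x hy)
      map_add' := fun x x' => by
        refine Submodule.linearMap_qext _ (LinearMap.ext (fun y => ?_))
        show (Submodule.Quotient.mk (fmul K p.1 (x + x') y) : FA K p.1 ⧸ idl val p) =
          Submodule.Quotient.mk (fmul K p.1 x y) + Submodule.Quotient.mk (fmul K p.1 x' y)
        rw [map_add, LinearMap.add_apply]
        rfl
      map_smul' := fun c x => by
        refine Submodule.linearMap_qext _ (LinearMap.ext (fun y => ?_))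
        show (Submodule.Quotient.mk (fmul K p.1 (c • x) y) : FA K p.1 ⧸ idl val p) =
          c • (Submodule.Quotient.mk (fmul K p.1 x y) : FA K p.1 ⧸ idl val p)
        rw [map_smul, LinearMap.smul_apply]
        rfl }
    (fun x hx => by
      rw [LinearMap.mem_ker]
      refine Submodule.linearMap_qext _ (LinearMap.ext (fun y => ?_))
      show Submodule.Quotient.mk (x * y) = (0 : FA K p.1 ⧸ idl val p)
      rw [Submodule.Quotient.mk_eq_zero]
      exact idl_mul_right val p y hx)

theorem qmul_mk (p : Pres C) (x y : FA K p.1) :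
    qmul val p (Submodule.Quotient.mk x) (Submodule.Quotient.mk y) =
      Submodule.Quotient.mk (x * y) := rfl

theorem presIso_iff (p q : Pres C) : PresIso val p q ↔ AlgIso (qmul val p) (qmul val q) := by
  constructor
  · rintro ⟨e, he⟩
    refine ⟨e, fun x y => ?_⟩
    obtain ⟨x, rfl⟩ := Submodule.Quotient.mk_surjective _ x
    obtain ⟨y, rfl⟩ := Submodule.Quotient.mk_surjective _ y
    obtain ⟨u, hu⟩ := Submodule.Quotient.mk_surjective _ (e (Submodule.Quotient.mk x))
    obtain ⟨v, hv⟩ := Submodule.Quotient.mk_surjective _ (e (Submodule.Quotient.mk y))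
    rw [qmul_mk, he x y u v hu.symm hv.symm, ← hu, ← hv, qmul_mk]
  · rintro ⟨e, he⟩
    refine ⟨e, fun x y u v hu hv => ?_⟩
    rw [← qmul_mk, he, hu, hv, qmul_mk]

/-- A subspace which contains the generators generates. -/
theorem gen_quot (p : Pres C) (V : Submodule K (FA K p.1 ⧸ idl val p))
    (h : ∀ i : Fin p.1, (Submodule.Quotient.mk (gen i) : FA K p.1 ⧸ idl val p) ∈ V) :
    Gen (qmul val p) V := by
  intro S hS hmul
  have key : ∀ x : FreeMagma (Fin p.1),
      (Submodule.Quotient.mk (MonoidAlgebra.single x (1 : K)) : FA K p.1 ⧸ idl val p) ∈ S := by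
    intro x
    induction x using FreeMagma.recOnMul with
    | ih1 i => exact hS (h i)
    | ih2 x y hx hy =>
      have h1 := hmul _ hx _ hy
      rw [qmul_mk, MonoidAlgebra.single_mul_single, mul_one] at h1
      exact h1
  rw [eq_top_iff]
  rintro x -
  obtain ⟨x, rfl⟩ := Submodule.Quotient.mk_surjective _ x
  induction x using MonoidAlgebra.induction_linear with
  | zero => exact S.zero_mem
  | add x y hx hy => exact S.add_mem hx hy
  | single a b =>
    have h1 : (MonoidAlgebra.single a b : FA K p.1) = b • MonoidAlgebra.single a (1 : K) := by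
      rw [MonoidAlgebra.smul_single, smul_eq_mul, mul_one]
    rw [h1]
    exact S.smul_mem b (key a)

section ev

variable {B : Type} [AddCommGroup B] [Module K B] (m' : B →ₗ[K] B →ₗ[K] B)

/-- The value of a nonassociative monomial. -/
def evm {n : ℕ} (g : Fin n → B) (x : FreeMagma (Fin n)) : B :=
  FreeMagma.recOnMul (C := fun _ => B) x g (fun _ _ a b => m' a b)

theorem evm_of {n : ℕ} (g : Fin n → B) (i : Fin n) : evm m' g (FreeMagma.of i) = g i := rfl

theorem evm_mul {n : ℕ} (g : Fin n → B) (x y : FreeMagma (Fin n)) :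
    evm m' g (x * y) = m' (evm m' g x) (evm m' g y) := rfl

/-- The homomorphism from the free algebra with given values on the generators. -/
noncomputable def ev {n : ℕ} (g : Fin n → B) : FA K n →ₗ[K] B :=
  (Finsupp.linearCombination K (evm m' g)) ∘ₗ (MonoidAlgebra.coeffLinearEquiv K).toLinearMap

theorem ev_single {n : ℕ} (g : Fin n → B) (x : FreeMagma (Fin n)) (c : K) :
    ev m' g (MonoidAlgebra.single x c) = c • evm m' g x := by
  show Finsupp.linearCombination K (evm m' g) (Finsupp.single x c) = _
  rw [Finsupp.linearCombination_single]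

theorem ev_gen {n : ℕ} (g : Fin n → B) (i : Fin n) : ev m' g (gen i) = g i := by
  unfold gen
  rw [ev_single, one_smul, evm_of]

theorem ev_mul {n : ℕ} (g : Fin n → B) (x y : FA K n) :
    ev m' g (x * y) = m' (ev m' g x) (ev m' g y) := by
  induction x using MonoidAlgebra.induction_linear with
  | zero => simp
  | add x x' hx hx' => rw [add_mul, map_add, hx, hx', map_add, map_add, LinearMap.add_apply]
  | single a b =>
    induction y using MonoidAlgebra.induction_linear with
    | zero => simp
    | add y y' hy hy' => rw [mul_add, map_add, hy, hy', map_add, map_add]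
    | single c d =>
      rw [MonoidAlgebra.single_mul_single, ev_single, ev_single, ev_single, evm_mul, map_smul,
        map_smul, LinearMap.smul_apply, smul_smul, mul_comm]

/-- The homomorphism from the presented algebra with given values on the generators. -/
theorem exists_lift (p : Pres C) (g : Fin p.1 → B)
    (h : ∀ r ∈ p.2, ev m' g (sem val p.1 r) = 0) :
    ∃ φ : (FA K p.1 ⧸ idl val p) →ₗ[K] B, IsHom (qmul val p) m' φ ∧
      ∀ x, φ (Submodule.Quotient.mk x) = ev m' g x := by
  have hker : idl val p ≤ LinearMap.ker (ev m' g : FA K p.1 →ₗ[K] B) := by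
    refine idl_le val p _ (fun r hr => h r hr) (fun a x hx => ?_)
    rw [LinearMap.mem_ker] at hx
    rw [LinearMap.mem_ker, LinearMap.mem_ker, ev_mul, ev_mul, hx, map_zero, map_zero,
      LinearMap.zero_apply]
    exact ⟨rfl, rfl⟩
  refine ⟨(idl val p).liftQ (ev m' g) hker, fun x y => ?_, fun x => rfl⟩
  obtain ⟨x, rfl⟩ := Submodule.Quotient.mk_surjective _ x
  obtain ⟨y, rfl⟩ := Submodule.Quotient.mk_surjective _ y
  rw [qmul_mk]
  exact ev_mul m' g x y

end ev

end quot

end Pool.Agent.Work.MP_9ac17e_al
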