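import Pool.Agent.Work.MP_9ac17e_al.Defs
import Pool.Agent.Work.MP_9ac17e_al.Bd.B01

/-!
# I17: finite fields

Every numbering of a field by a finite coded type is primitive recursive, and isomorphism of
finite-dimensional algebras over such a field is decidable (brute force over all matrices).
-/

set_option autoImplicit false

namespace Pool.Agent.Work.MP_9ac17e_al

open Pool.Agent.PR

theorem exists_numF_finite {K C : Type} [Field K] [Primcodable C] [Finite C] (val : C → K)
    (h : Function.Surjective val) : ∃ N : NumF K C, N.val = val := by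
  classical
  choose s hs using h
  exact ⟨{
    val := val
    zero := s 0
    one := s 1
    add := fun a b => s (val a + val b)
    mul := fun a b => s (val a * val b)
    neg := fun a => s (- val a)
    eqb := fun a b => decide (val a = val b)
    padd := Primrec.dom_finite _
    pmul := Primrec.dom_finite _
    pneg := Primrec.dom_finite _
    peqb := Primrec.dom_finite _
    val_zero := hs 0
    val_one := hs 1
    val_add := fun a b => hs _
    val_mul := fun a b => hs _
    val_neg := fun a => hs _
    val_eq := fun a b => by simp }, rfl⟩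

section

variable {K C : Type} [Field K] [Primcodable C] (N : NumF K C)

/-- All lists of length `n` with entries in `L`. -/
def allLists (L : List C) (n : ℕ) : List (List C) :=
  (fun m : List (List C) => m.flatMap (fun l => L.map (fun c => c :: l)))^[n] [[]]

omit [Primcodable C] in
theorem mem_allLists (L : List C) (hL : ∀ c, c ∈ L) (n : ℕ) (l : List C) :
    l ∈ allLists L n ↔ l.length = n := by
  induction n generalizing l with
  | zero => simp [allLists]
  | succ n ih =>
    unfold allLists at ih ⊢
    rw [Function.iterate_succ_apply', List.mem_flatMap]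
    constructor
    · rintro ⟨m, hm, hl⟩
      rw [List.mem_map] at hl
      obtain ⟨c, _, rfl⟩ := hl
      rw [List.length_cons, (ih m).1 hm]
    · intro hl
      cases l with
      | nil => simp at hl
      | cons c m =>
        refine ⟨m, (ih m).2 (by simpa using hl), ?_⟩
        rw [List.mem_map]
        exact ⟨c, hL c, rfl⟩

/-- Product of two matrices of codes, an entry. -/
def mulE (n : ℕ) (g h : List C) (i j : ℕ) : C :=
  N.sumc ((List.range n).map (fun l => N.mul (N.ent g (i * n + l)) (N.ent h (l * n + j))))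

/-- Left side of the multiplicativity condition. -/
def lhsE (n : ℕ) (g c : List C) (i j k : ℕ) : C :=
  N.sumc ((List.range n).map (fun l =>
    N.mul (N.ent g (k * n + l)) (N.ent c ((i * n + j) * n + l))))

/-- Right side of the multiplicativity condition. -/
def rhsE (n : ℕ) (g d : List C) (i j k : ℕ) : C :=
  N.sumc ((List.range n).map (fun a => N.sumc ((List.range n).map (fun b =>
    N.mul (N.ent d ((a * n + b) * n + k))
      (N.mul (N.ent g (a * n + i)) (N.ent g (b * n + j)))))))

/-- The matrices `g` and `h` are inverse to each other. -/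
def chkInv (n : ℕ) (g h : List C) : Bool :=
  (List.range n).all (fun i => (List.range n).all (fun j =>
    N.eqb (mulE N n g h i j) (if i = j then N.one else N.zero) &&
    N.eqb (mulE N n h g i j) (if i = j then N.one else N.zero)))

/-- The matrix `g` is multiplicative. -/
def chkMul (n : ℕ) (g c d : List C) : Bool :=
  (List.range n).all (fun i => (List.range n).all (fun j => (List.range n).all (fun k =>
    N.eqb (lhsE N n g c i j k) (rhsE N n g d i j k))))

/-- The brute force search. -/
def search (L : List C) (c d : FD C) : Bool :=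
  decide (c.1 = d.1) && (allLists L (c.1 * c.1)).any (fun g => (allLists L (c.1 * c.1)).any
    (fun h => chkInv N c.1 g h && chkMul N c.1 g c.2 d.2))

theorem primrec_allLists (L : List C) : Primrec (fun n : ℕ => allLists L n) := by
  unfold allLists
  fun_prop

theorem primrec_mulE {α : Type} [Primcodable α] {n i j : α → ℕ} {g h : α → List C}
    (hn : Primrec n) (hg : Primrec g) (hh : Primrec h) (hi : Primrec i) (hj : Primrec j) :
    Primrec (fun a => mulE N (n a) (g a) (h a) (i a) (j a)) := by
  unfold mulE
  fun_prop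

theorem primrec_lhsE {α : Type} [Primcodable α] {n i j k : α → ℕ} {g h : α → List C}
    (hn : Primrec n) (hg : Primrec g) (hh : Primrec h) (hi : Primrec i) (hj : Primrec j)
    (hk : Primrec k) : Primrec (fun a => lhsE N (n a) (g a) (h a) (i a) (j a) (k a)) := by
  unfold lhsE
  fun_prop

theorem primrec_rhsE {α : Type} [Primcodable α] {n i j k : α → ℕ} {g h : α → List C}
    (hn : Primrec n) (hg : Primrec g) (hh : Primrec h) (hi : Primrec i) (hj : Primrec j)
    (hk : Primrec k) : Primrec (fun a => rhsE N (n a) (g a) (h a) (i a) (j a) (k a)) := by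
  unfold rhsE
  fun_prop

theorem primrec_chkInv : Primrec (fun q : ℕ × (List C × List C) => chkInv N q.1 q.2.1 q.2.2) := by
  unfold chkInv mulE
  fun_prop

theorem primrec_chkMul : Primrec (fun q : ℕ × (List C × (List C × List C)) =>
    chkMul N q.1 q.2.1 q.2.2.1 q.2.2.2) := by
  unfold chkMul lhsE rhsE
  fun_prop

theorem primrec_search (L : List C) :
    Primrec (fun q : FD C × FD C => search N L q.1 q.2) := by
  have h1 := primrec_allLists L
  have h2 := primrec_chkInv N
  have h3 := primrec_chkMul N
  unfold search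
  have h4 : Primrec (fun q : FD C × FD C => allLists L (q.1.1 * q.1.1)) :=
    h1.comp (by fun_prop)
  refine Pool.Agent.PR.and (by fun_prop) (Pool.Agent.PR.any
    (f := fun (q : FD C × FD C) (g : List C) => (allLists L (q.1.1 * q.1.1)).any
    (fun h => chkInv N q.1.1 g h && chkMul N q.1.1 g q.1.2 q.2.2)) ?_ h4)
  refine Pool.Agent.PR.any
    (f := fun (p : (FD C × FD C) × List C) (h : List C) =>
      chkInv N p.1.1.1 p.2 h && chkMul N p.1.1.1 p.2 p.1.1.2 p.1.2.2) ?_
    (h4.comp Primrec.fst)
  refine Pool.Agent.PR.and ?_ ?_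
  · exact h2.comp (f := fun q : ℕ × (List C × List C) => chkInv N q.1 q.2.1 q.2.2)
      (g := fun p : ((FD C × FD C) × List C) × List C => (p.1.1.1.1, (p.1.2, p.2))) (by fun_prop)
  · exact h3.comp
      (f := fun q : ℕ × (List C × (List C × List C)) => chkMul N q.1 q.2.1 q.2.2.1 q.2.2.2)
      (g := fun p : ((FD C × FD C) × List C) × List C =>
        (p.1.1.1.1, (p.1.2, (p.1.1.1.2, p.1.1.2.2)))) (by fun_prop)

/-! ### Correctness -/

/-- The matrix given by a list. -/
def matF (n : ℕ) (g : List C) : Matrix (Fin n) (Fin n) K :=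
  Matrix.of fun i j => N.val (N.ent g (i * n + j))

theorem val_mulE (n : ℕ) (g h : List C) (i j : Fin n) :
    N.val (mulE N n g h i j) = (matF N n g * matF N n h) i j := by
  unfold mulE
  rw [N.val_sum_range, Matrix.mul_apply]
  exact Finset.sum_congr rfl (fun l _ => by rw [N.val_mul]; rfl)

theorem val_one_zero (n : ℕ) (i j : Fin n) :
    N.val (if (i : ℕ) = (j : ℕ) then N.one else N.zero) = (1 : Matrix (Fin n) (Fin n) K) i j := by
  rw [Matrix.one_apply]
  by_cases h : i = j
  · rw [if_pos (by rw [h]), if_pos h, N.val_one]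
  · rw [if_neg (fun h' => h (Fin.ext h')), if_neg h, N.val_zero]

theorem chkInv_iff (n : ℕ) (g h : List C) :
    chkInv N n g h = true ↔ matF N n g * matF N n h = 1 ∧ matF N n h * matF N n g = 1 := by
  unfold chkInv
  simp only [List.all_eq_true, List.mem_range, Bool.and_eq_true, N.val_eq]
  constructor
  · intro H
    constructor
    · ext i j
      rw [← val_mulE, (H i i.2 j j.2).1, val_one_zero]
    · ext i j
      rw [← val_mulE, (H i i.2 j j.2).2, val_one_zero]
  · rintro ⟨H1, H2⟩ i hi j hj
    have e1 := val_mulE N n g h ⟨i, hi⟩ ⟨j, hj⟩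
    have e2 := val_mulE N n h g ⟨i, hi⟩ ⟨j, hj⟩
    have e3 := val_one_zero N n ⟨i, hi⟩ ⟨j, hj⟩
    rw [H1, ← e3] at e1
    rw [H2, ← e3] at e2
    exact ⟨e1, e2⟩

theorem val_lhsE (n : ℕ) (g c : List C) (i j k : Fin n) :
    N.val (lhsE N n g c i j k) =
      ∑ l : Fin n, matF N n g k l * entry N.val c ((i * n + j) * n + l) := by
  unfold lhsE
  rw [N.val_sum_range]
  exact Finset.sum_congr rfl (fun l _ => by rw [N.val_mul, entry_eq]; rfl)

theorem val_rhsE (n : ℕ) (g d : List C) (i j k : Fin n) :
    N.val (rhsE N n g d i j k) =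
      ∑ a : Fin n, ∑ b : Fin n, entry N.val d ((a * n + b) * n + k) *
        (matF N n g a i * matF N n g b j) := by
  unfold rhsE
  rw [N.val_sum_range]
  refine Finset.sum_congr rfl (fun a _ => ?_)
  rw [N.val_sum_range]
  exact Finset.sum_congr rfl (fun b _ => by rw [N.val_mul, N.val_mul, entry_eq]; rfl)

theorem chkMul_iff (n : ℕ) (g c d : List C) :
    chkMul N n g c d = true ↔ ∀ i j k : Fin n,
      ∑ l : Fin n, matF N n g k l * entry N.val c ((i * n + j) * n + l) =
      ∑ a : Fin n, ∑ b : Fin n, entry N.val d ((a * n + b) * n + k) *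
        (matF N n g a i * matF N n g b j) := by
  unfold chkMul
  simp only [List.all_eq_true, List.mem_range, N.val_eq]
  constructor
  · intro H i j k
    rw [← val_lhsE, ← val_rhsE]
    exact H i i.2 j j.2 k k.2
  · intro H i hi j hj k hk
    have := H ⟨i, hi⟩ ⟨j, hj⟩ ⟨k, hk⟩
    rw [← val_lhsE, ← val_rhsE] at this
    exact this

theorem mul_lhs (n : ℕ) (G : Matrix (Fin n) (Fin n) K) (c : List C) (x y : Fin n → K) (k : Fin n) :
    G.mulVec (fdMul N.val (n, c) x y) k = ∑ i : Fin n, ∑ j : Fin n,
      (∑ l : Fin n, G k l * entry N.val c ((i * n + j) * n + l)) * (x i * y j) := by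
  simp only [Matrix.mulVec, dotProduct, fdMul, Finset.mul_sum, Finset.sum_mul]
  rw [Finset.sum_comm]
  refine Finset.sum_congr rfl (fun i _ => ?_)
  rw [Finset.sum_comm]
  refine Finset.sum_congr rfl (fun j _ => Finset.sum_congr rfl (fun l _ => ?_))
  ring

theorem mul_rhs (n : ℕ) (G : Matrix (Fin n) (Fin n) K) (d : List C) (x y : Fin n → K) (k : Fin n) :
    fdMul N.val (n, d) (G.mulVec x) (G.mulVec y) k = ∑ i : Fin n, ∑ j : Fin n,
      (∑ a : Fin n, ∑ b : Fin n, entry N.val d ((a * n + b) * n + k) * (G a i * G b j)) *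
        (x i * y j) := by
  have h : ∀ f : Fin n → Fin n → Fin n → Fin n → K,
      ∑ a : Fin n, ∑ b : Fin n, ∑ i : Fin n, ∑ j : Fin n, f a b i j =
      ∑ i : Fin n, ∑ j : Fin n, ∑ a : Fin n, ∑ b : Fin n, f a b i j := by
    intro f
    calc ∑ a : Fin n, ∑ b : Fin n, ∑ i : Fin n, ∑ j : Fin n, f a b i j
        = ∑ a : Fin n, ∑ i : Fin n, ∑ b : Fin n, ∑ j : Fin n, f a b i j :=
          Finset.sum_congr rfl (fun a _ => Finset.sum_comm)
      _ = ∑ i : Fin n, ∑ a : Fin n, ∑ b : Fin n, ∑ j : Fin n, f a b i j := Finset.sum_comm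
      _ = ∑ i : Fin n, ∑ a : Fin n, ∑ j : Fin n, ∑ b : Fin n, f a b i j :=
          Finset.sum_congr rfl (fun i _ => Finset.sum_congr rfl (fun a _ => Finset.sum_comm))
      _ = _ := Finset.sum_congr rfl (fun i _ => Finset.sum_comm)
  simp only [Finset.sum_mul]
  rw [← h]
  simp only [Matrix.mulVec, dotProduct, fdMul]
  refine Finset.sum_congr rfl (fun a _ => Finset.sum_congr rfl (fun b _ => ?_))
  rw [Finset.sum_mul_sum, Finset.mul_sum]
  refine Finset.sum_congr rfl (fun i _ => ?_)
  rw [Finset.mul_sum]
  refine Finset.sum_congr rfl (fun j _ => ?_)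
  ring

theorem exists_listF (hs : Function.Surjective N.val) (n : ℕ) (f : Fin n → Fin n → K) :
    ∃ g : List C, g.length = n * n ∧ matF N n g = Matrix.of f := by
  choose s hs using hs
  refine ⟨(List.range (n * n)).map (fun t => if h : t / n < n ∧ t % n < n then
    s (f ⟨t / n, h.1⟩ ⟨t % n, h.2⟩) else N.zero), by simp, ?_⟩
  ext i j
  have hi := i.2
  have hj := j.2
  have hlt : (i : ℕ) * n + j < n * n := by
    calc (i : ℕ) * n + j < i * n + n := by omega
      _ = (i + 1) * n := by ring
      _ ≤ n * n := Nat.mul_le_mul_right _ hi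
  have hn : 0 < n := by omega
  have hdiv : ((i : ℕ) * n + j) / n = i := by
    rw [mul_comm, Nat.mul_add_div hn, Nat.div_eq_of_lt hj, add_zero]
  have hmod : ((i : ℕ) * n + j) % n = j := by
    rw [mul_comm, Nat.mul_add_mod, Nat.mod_eq_of_lt hj]
  simp only [matF, Matrix.of_apply, NumF.ent]
  rw [List.getElem?_map, List.getElem?_range hlt]
  simp only [Option.map_some, Option.getD_some]
  have hc : ((i : ℕ) * n + j) / n < n ∧ ((i : ℕ) * n + j) % n < n := by
    rw [hdiv, hmod]; exact ⟨hi, hj⟩
  rw [dif_pos hc, hs]
  congr 1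
  · exact Fin.ext hdiv
  · exact Fin.ext hmod

theorem search_iff (hs : Function.Surjective N.val) (L : List C) (hL : ∀ c, c ∈ L) (c d : FD C) :
    search N L c d = true ↔ FDIso N.val c d := by
  unfold search
  simp only [Bool.and_eq_true, decide_eq_true_eq, List.any_eq_true, mem_allLists L hL]
  obtain ⟨n, c⟩ := c
  obtain ⟨m, d⟩ := d
  dsimp only
  constructor
  · rintro ⟨rfl, g, hg, h, hh, hinv, hmul⟩
    rw [chkInv_iff] at hinv
    rw [chkMul_iff] at hmul
    refine ⟨Matrix.toLin'OfInv hinv.2 hinv.1, fun x y => ?_⟩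
    have happ : ∀ z : Fin n → K, (Matrix.toLin'OfInv hinv.2 hinv.1) z = (matF N n g).mulVec z :=
      fun z => by
        simp [Matrix.toLin'OfInv]
    rw [happ, happ, happ]
    funext k
    rw [mul_lhs, mul_rhs]
    exact Finset.sum_congr rfl (fun i _ => Finset.sum_congr rfl (fun j _ => by rw [hmul i j k]))
  · rintro ⟨e, he⟩
    have hnm : n = m := by
      have := e.finrank_eq
      simpa using this
    subst hnm
    refine ⟨rfl, ?_⟩
    obtain ⟨g, hg, hg'⟩ := exists_listF N hs n (fun i j => LinearMap.toMatrix' e.toLinearMap i j)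
    obtain ⟨h, hh, hh'⟩ := exists_listF N hs n (fun i j => LinearMap.toMatrix' e.symm.toLinearMap i j)
    have hg2 : matF N n g = LinearMap.toMatrix' e.toLinearMap := hg'
    have hh2 : matF N n h = LinearMap.toMatrix' e.symm.toLinearMap := hh'
    refine ⟨g, hg, h, hh, ?_, ?_⟩
    · rw [chkInv_iff, hg2, hh2, ← LinearMap.toMatrix'_comp, ← LinearMap.toMatrix'_comp]
      constructor
      · rw [LinearEquiv.comp_symm, LinearMap.toMatrix'_id]
      · rw [LinearEquiv.symm_comp, LinearMap.toMatrix'_id]
    · rw [chkMul_iff]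
      intro i j k
      have happ : ∀ z : Fin n → K, e z = (matF N n g).mulVec z := fun z => by
        rw [hg2, LinearMap.toMatrix'_mulVec]
        rfl
      have h1 := congrFun (he (Pi.single i 1) (Pi.single j 1)) k
      rw [happ, happ, happ, mul_lhs, mul_rhs] at h1
      simpa [Pi.single_apply] using h1

end

theorem computable_fdIso_finite {K C : Type} [Field K] [Primcodable C] [Finite C] (N : NumF K C)
    (hs : Function.Surjective N.val) :
    ComputablePred (fun q : FD C × FD C => FDIso N.val q.1 q.2) := by
  classical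
  cases nonempty_fintype C
  have h := primrec_search N (Finset.univ.toList : List C)
  have h2 : ∀ q : FD C × FD C, search N (Finset.univ.toList : List C) q.1 q.2 = true ↔
      FDIso N.val q.1 q.2 := fun q => search_iff N hs _ (fun c => by simp) q.1 q.2
  refine Computable.computablePred (h.to_comp.of_eq (fun q => ?_))
  rw [Bool.eq_iff_iff, h2 q]
  simp

end Pool.Agent.Work.MP_9ac17e_al
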