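import Pool.Agent.Work.MP_9ac17e_al.Quot
import Pool.Agent.Work.MP_9ac17e_al.Bd.B01

/-!
# The rationals as a numbered field, clearing denominators
-/

set_option autoImplicit false

namespace Pool.Agent.Work.MP_9ac17e_al

/-- Integer coefficients, as in the frozen statement. -/
def valZ (c : ℕ × ℕ) : ℚ := (c.1 : ℚ) - (c.2 : ℚ)

/-- Rational coefficients: `((a, b), c)` is the code of `(a - b) / (c + 1)`. -/
def valQ (c : (ℕ × ℕ) × ℕ) : ℚ := ((c.1.1 : ℚ) - (c.1.2 : ℚ)) / ((c.2 : ℚ) + 1)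

theorem valQ_surjective : Function.Surjective valQ := by
  intro q
  refine ⟨((q.num.toNat, (-q.num).toNat), q.den - 1), ?_⟩
  have h1 : ((q.num.toNat : ℚ)) - ((-q.num).toNat : ℚ) = (q.num : ℚ) := by
    have h : ((q.num.toNat : ℤ)) - ((-q.num).toNat : ℤ) = q.num := by
      rcases le_total 0 q.num with h0 | h0
      · rw [Int.toNat_of_nonneg h0, Int.toNat_of_nonpos (by omega)]; simp
      · rw [Int.toNat_of_nonpos h0, Int.toNat_of_nonneg (by omega)]; simp
    exact_mod_cast congrArg (fun z : ℤ => (z : ℚ)) h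
  have h2 : (((q.den - 1 : ℕ) : ℚ)) + 1 = (q.den : ℚ) := by
    have h : q.den - 1 + 1 = q.den := Nat.sub_add_cancel q.den_pos
    exact_mod_cast congrArg (fun z : ℕ => (z : ℚ)) h
  show ((q.num.toNat : ℚ) - ((-q.num).toNat : ℚ)) / (((q.den - 1 : ℕ) : ℚ) + 1) = q
  rw [h1, h2, Rat.num_div_den]

theorem exists_numF_rat : ∃ N : NumF ℚ ((ℕ × ℕ) × ℕ), N.val = valQ := by
  have hpos : ∀ c : ℕ, ((c : ℚ) + 1) ≠ 0 := fun c => by positivity
  refine ⟨{
    val := valQ
    zero := ((0, 0), 0)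
    one := ((1, 0), 0)
    add := fun a b => ((a.1.1 * (b.2 + 1) + b.1.1 * (a.2 + 1),
      a.1.2 * (b.2 + 1) + b.1.2 * (a.2 + 1)), a.2 * b.2 + a.2 + b.2)
    mul := fun a b => ((a.1.1 * b.1.1 + a.1.2 * b.1.2,
      a.1.1 * b.1.2 + a.1.2 * b.1.1), a.2 * b.2 + a.2 + b.2)
    neg := fun a => ((a.1.2, a.1.1), a.2)
    eqb := fun a b => decide (a.1.1 * (b.2 + 1) + b.1.2 * (a.2 + 1) =
      b.1.1 * (a.2 + 1) + a.1.2 * (b.2 + 1))
    padd := by unfold Primrec₂; fun_prop
    pmul := by unfold Primrec₂; fun_prop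
    pneg := by fun_prop
    peqb := by unfold Primrec₂; fun_prop
    val_zero := by simp [valQ]
    val_one := by simp [valQ]
    val_add := ?_
    val_mul := ?_
    val_neg := ?_
    val_eq := ?_ }, rfl⟩
  · rintro ⟨⟨a, b⟩, c⟩ ⟨⟨a', b'⟩, c'⟩
    have h1 := hpos c
    have h2 := hpos c'
    have h3 : ((c : ℚ) * c' + c + c' + 1) ≠ 0 := by positivity
    simp only [valQ]
    push_cast
    field_simp
    ring
  · rintro ⟨⟨a, b⟩, c⟩ ⟨⟨a', b'⟩, c'⟩
    have h1 := hpos c
    have h2 := hpos c'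
    have h3 : ((c : ℚ) * c' + c + c' + 1) ≠ 0 := by positivity
    simp only [valQ]
    push_cast
    field_simp
    ring
  · rintro ⟨⟨a, b⟩, c⟩
    simp only [valQ]
    ring
  · rintro ⟨⟨a, b⟩, c⟩ ⟨⟨a', b'⟩, c'⟩
    have h1 := hpos c
    have h2 := hpos c'
    simp only [valQ, decide_eq_true_eq]
    rw [div_eq_div_iff h1 h2]
    constructor
    · intro h
      have : ((a * (c' + 1) + b' * (c + 1) : ℕ) : ℚ) = ((a' * (c + 1) + b * (c' + 1) : ℕ) : ℚ) := by
        exact_mod_cast h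
      push_cast at this
      linear_combination this
    · intro h
      have : ((a * (c' + 1) + b' * (c + 1) : ℕ) : ℚ) = ((a' * (c + 1) + b * (c' + 1) : ℕ) : ℚ) := by
        push_cast
        linear_combination h
      exact_mod_cast this

section congr

variable {K C C' : Type} [Field K] (val : C → K) (val' : C' → K)

/-- The isomorphism statement for two ideals. -/
def IdealIso {K : Type} [Field K] (n k : ℕ) (I : Submodule K (FA K n)) (J : Submodule K (FA K k)) :
    Prop :=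
  ∃ e : (FA K n ⧸ I) ≃ₗ[K] (FA K k ⧸ J),
    ∀ (x y : FA K n) (u v : FA K k),
      e (Submodule.Quotient.mk x) = Submodule.Quotient.mk u →
      e (Submodule.Quotient.mk y) = Submodule.Quotient.mk v →
      e (Submodule.Quotient.mk (x * y)) = Submodule.Quotient.mk (u * v)

theorem presIso_congr (n k : ℕ) (P : List (Rel C)) (P' : List (Rel C')) (Q : List (Rel C))
    (Q' : List (Rel C')) (hP : idl val (n, P) = idl val' (n, P'))
    (hQ : idl val (k, Q) = idl val' (k, Q')) :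
    PresIso val (n, P) (k, Q) ↔ PresIso val' (n, P') (k, Q') := by
  show IdealIso n k (idl val (n, P)) (idl val (k, Q)) ↔
    IdealIso n k (idl val' (n, P')) (idl val' (k, Q'))
  rw [hP, hQ]

theorem idl_congr (n : ℕ) (P : List (Rel C)) (P' : List (Rel C'))
    (h : ∀ S : Submodule K (FA K n), (∀ r ∈ P, sem val n r ∈ S) ↔ ∀ r ∈ P', sem val' n r ∈ S) :
    idl val (n, P) = idl val' (n, P') := by
  unfold idl
  congr 1
  ext S
  exact and_congr_left (fun _ => h S)

end congr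

/-- Integer relators as rational relators. -/
def intToRat (r : Rel (ℕ × ℕ)) : Rel ((ℕ × ℕ) × ℕ) := r.map (fun c => ((c.1, 0), c.2))

theorem sem_intToRat (n : ℕ) (r : Rel (ℕ × ℕ)) : sem valQ n (intToRat r) = sem valZ n r := by
  unfold sem intToRat
  rw [List.map_map]
  congr 1
  refine List.map_congr_left (fun c _ => ?_)
  simp [valQ, valZ]

theorem reduce_int : (fun q : Pres (ℕ × ℕ) × Pres (ℕ × ℕ) => PresIso valZ q.1 q.2) ≤₀
    (fun q : Pres ((ℕ × ℕ) × ℕ) × Pres ((ℕ × ℕ) × ℕ) => PresIso valQ q.1 q.2) := by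
  have h : ∀ (n : ℕ) (P : List (Rel (ℕ × ℕ))), idl valZ (n, P) = idl valQ (n, P.map intToRat) := by
    intro n P
    refine idl_congr _ _ _ _ _ (fun S => ?_)
    rw [List.forall_mem_map]
    simp only [sem_intToRat]
  refine ⟨fun q => ((q.1.1, q.1.2.map intToRat), (q.2.1, q.2.2.map intToRat)), ?_, ?_⟩
  · refine Primrec.to_comp ?_
    unfold intToRat
    fun_prop
  · rintro ⟨⟨n, P⟩, ⟨k, Q⟩⟩
    exact presIso_congr _ _ _ _ _ _ _ _ (h n P) (h k Q)

/-- The product of the denominators of a relator. -/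
def denom (r : Rel ((ℕ × ℕ) × ℕ)) : ℕ := r.foldr (fun c s => (c.1.2 + 1) * s) 1

theorem denom_ne_zero (r : Rel ((ℕ × ℕ) × ℕ)) : denom r ≠ 0 := by
  induction r with
  | nil => exact one_ne_zero
  | cons c r ih => exact mul_ne_zero (Nat.succ_ne_zero _) ih

theorem dvd_denom (r : Rel ((ℕ × ℕ) × ℕ)) : ∀ c ∈ r, (c.1.2 + 1) ∣ denom r := by
  induction r with
  | nil => intro c hc; simp at hc
  | cons d r ih =>
    intro c hc
    rcases List.mem_cons.1 hc with rfl | h
    · exact Dvd.intro _ rfl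
    · exact (ih c h).trans (Dvd.intro_left _ rfl)

/-- Rational relators multiplied by the product of their denominators. -/
def ratToInt (r : Rel ((ℕ × ℕ) × ℕ)) : Rel (ℕ × ℕ) :=
  r.map (fun c => ((c.1.1.1 * (denom r / (c.1.2 + 1)), c.1.1.2 * (denom r / (c.1.2 + 1))), c.2))

theorem sem_ratToInt (n : ℕ) (r : Rel ((ℕ × ℕ) × ℕ)) :
    sem valZ n (ratToInt r) = (denom r : ℚ) • sem valQ n r := by
  unfold sem ratToInt
  rw [List.map_map, List.smul_sum, List.map_map]
  congr 1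
  refine List.map_congr_left (fun c hc => ?_)
  obtain ⟨⟨⟨a, b⟩, d⟩, w⟩ := c
  have hd : ((d : ℚ) + 1) ≠ 0 := by positivity
  have h1 : ((denom r / (d + 1) : ℕ) : ℚ) = (denom r : ℚ) / ((d : ℚ) + 1) := by
    rw [Nat.cast_div (dvd_denom r _ hc) (by push_cast; exact hd)]
    push_cast
    rfl
  simp only [Function.comp_apply, valZ, valQ]
  rw [smul_smul]
  congr 1
  push_cast
  rw [h1]
  field_simp

/-- Clearing denominators in all relators. -/
theorem reduce_rat : (fun q : Pres ((ℕ × ℕ) × ℕ) × Pres ((ℕ × ℕ) × ℕ) => PresIso valQ q.1 q.2) ≤₀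
    (fun q : Pres (ℕ × ℕ) × Pres (ℕ × ℕ) => PresIso valZ q.1 q.2) := by
  have h : ∀ (n : ℕ) (P : List (Rel ((ℕ × ℕ) × ℕ))),
      idl valQ (n, P) = idl valZ (n, P.map ratToInt) := by
    intro n P
    refine idl_congr _ _ _ _ _ (fun S => ?_)
    rw [List.forall_mem_map]
    refine forall₂_congr (fun r _ => ?_)
    rw [sem_ratToInt]
    exact (S.smul_mem_iff (by exact_mod_cast denom_ne_zero r)).symm
  refine ⟨fun q => ((q.1.1, q.1.2.map ratToInt), (q.2.1, q.2.2.map ratToInt)), ?_, ?_⟩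
  · refine Primrec.to_comp ?_
    unfold ratToInt denom
    fun_prop
  · rintro ⟨⟨n, P⟩, ⟨k, Q⟩⟩
    exact presIso_congr _ _ _ _ _ _ _ _ (h n P) (h k Q)

end Pool.Agent.Work.MP_9ac17e_al
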