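import Mathlib

/-!
# The isomorphism problem for finitely presented nonassociative algebras: definitions

* `Pres C`: finite presentations with coefficients coded by elements of `C`;
* `PresIso val`: isomorphism of the presented algebras over the field `K`, `val : C → K`;
  for `K = ℚ`, `C = ℕ × ℕ`, `val (a, b) = a - b` this is the predicate of the frozen statement;
* `FD C`: structure constants of finite-dimensional algebras, `FDIso val`: isomorphism.
-/

set_option autoImplicit false

namespace Pool.Agent.Work.MP_9ac17e_al

open TensorProduct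

/-! ### Presentations -/

/-- The free nonassociative algebra. -/
abbrev FA (K : Type) [Field K] (n : ℕ) : Type := MonoidAlgebra K (FreeMagma (Fin n))

/-- The element of the free nonassociative algebra given by a postfix word: the letter `t + 1`
pushes the generator number `t` (or `0` if there is no such generator), the letter `0` multiplies
the two topmost elements of the stack. -/
noncomputable def mon (K : Type) [Field K] (n : ℕ) (w : List ℕ) : FA K n :=
  (List.foldl (fun (s : List (FA K n)) (t : ℕ) =>
    if t = 0 then (s.tail.headD 0 * s.headD 0) :: s.tail.tail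
    else (if h : t - 1 < n then MonoidAlgebra.single (FreeMagma.of (⟨t - 1, h⟩ : Fin n)) (1 : K)
      else 0) :: s) ([] : List (FA K n)) w).headD 0

/-- Formal linear combinations of postfix words, coefficients coded by `C`. -/
abbrev Rel (C : Type) : Type := List (C × List ℕ)

/-- Finite presentations: the number of generators and the list of the relators. -/
abbrev Pres (C : Type) : Type := ℕ × List (Rel C)

section

variable {K C : Type} [Field K] (val : C → K)

/-- The element of the free algebra given by a formal linear combination. -/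
noncomputable def sem (n : ℕ) (r : Rel C) : FA K n :=
  (List.map (fun (c : C × List ℕ) => val c.1 • mon K n c.2) r).sum

/-- The two-sided ideal generated by the relators. -/
noncomputable def idl (p : Pres C) : Submodule K (FA K p.1) :=
  sInf {S : Submodule K (FA K p.1) | (∀ r ∈ p.2, sem val p.1 r ∈ S) ∧
    ∀ a x : FA K p.1, x ∈ S → a * x ∈ S ∧ x * a ∈ S}

/-- The presented algebras are isomorphic. -/
def PresIso (p q : Pres C) : Prop :=
  ∃ e : (FA K p.1 ⧸ idl val p) ≃ₗ[K] (FA K q.1 ⧸ idl val q),
    ∀ (x y : FA K p.1) (u v : FA K q.1),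
      e (Submodule.Quotient.mk x) = Submodule.Quotient.mk u →
      e (Submodule.Quotient.mk y) = Submodule.Quotient.mk v →
      e (Submodule.Quotient.mk (x * y)) = Submodule.Quotient.mk (u * v)

/-! ### Finite-dimensional algebras -/

/-- Structure constants: `(n, l)` is the algebra on `K ^ n` in which the coefficient of `e_k` in
`e_i e_j` is (the value of) the entry number `(i n + j) n + k` of `l` (zero if missing). -/
abbrev FD (C : Type) : Type := ℕ × List C

/-- The `i`-th entry of a list of codes. -/
def entry (l : List C) (i : ℕ) : K := ((l[i]?).map val).getD 0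

/-- The multiplication given by structure constants. -/
def fdMul (d : FD C) (x y : Fin d.1 → K) : Fin d.1 → K :=
  fun k => ∑ i : Fin d.1, ∑ j : Fin d.1, entry val d.2 ((i * d.1 + j) * d.1 + k) * (x i * y j)

/-- Two finite-dimensional algebras are isomorphic. -/
def FDIso (c d : FD C) : Prop :=
  ∃ e : (Fin c.1 → K) ≃ₗ[K] (Fin d.1 → K), ∀ x y, e (fdMul val c x y) = fdMul val d (e x) (e y)

end

/-! ### Numbered fields -/

/-- A primitive recursive numbering of a subfield of the field `K` (of all of `K` if `val` is
surjective). -/
structure NumF (K : Type) [Field K] (C : Type) [Primcodable C] where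
  /-- the value of a code -/
  val : C → K
  zero : C
  one : C
  add : C → C → C
  mul : C → C → C
  neg : C → C
  eqb : C → C → Bool
  padd : Primrec₂ add
  pmul : Primrec₂ mul
  pneg : Primrec neg
  peqb : Primrec₂ eqb
  val_zero : val zero = 0
  val_one : val one = 1
  val_add : ∀ a b, val (add a b) = val a + val b
  val_mul : ∀ a b, val (mul a b) = val a * val b
  val_neg : ∀ a, val (neg a) = - val a
  val_eq : ∀ a b, eqb a b = true ↔ val a = val b

/-! ### Abstract algebras: a vector space with a bilinear multiplication -/

section abstract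

variable {K : Type} [Field K] {A B : Type} [AddCommGroup A] [Module K A] [AddCommGroup B]
  [Module K B] (m : A →ₗ[K] A →ₗ[K] A) (m' : B →ₗ[K] B →ₗ[K] B)

/-- The multiplication as a linear map on the tensor product. -/
noncomputable def mt : A ⊗[K] A →ₗ[K] A := TensorProduct.lift m

/-- Homomorphisms. -/
def IsHom (f : A →ₗ[K] B) : Prop := ∀ x y, f (m x y) = m' (f x) (f y)

/-- Isomorphic algebras. -/
def AlgIso : Prop := ∃ e : A ≃ₗ[K] B, ∀ x y, e (m x y) = m' (e x) (e y)

/-- `V ⊗ V` as a subspace of `A ⊗ A`. -/
noncomputable def sq (V : Submodule K A) : Submodule K (A ⊗[K] A) :=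
  LinearMap.range (TensorProduct.map V.subtype V.subtype)

/-- Contraction of the first factor. -/
noncomputable def cL (f : A →ₗ[K] K) : A ⊗[K] A →ₗ[K] A :=
  (TensorProduct.lid K A).toLinearMap ∘ₗ TensorProduct.map f LinearMap.id

/-- Contraction of the second factor. -/
noncomputable def cR (f : A →ₗ[K] K) : A ⊗[K] A →ₗ[K] A :=
  (TensorProduct.rid K A).toLinearMap ∘ₗ TensorProduct.map LinearMap.id f

/-- The support of a subspace of `A ⊗ A`: the smallest `T` with `W ≤ sq T`. -/
noncomputable def supp (W : Submodule K (A ⊗[K] A)) : Submodule K A :=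
  ⨆ f : A →ₗ[K] K, (W.map (cL f) ⊔ W.map (cR f))

/-- The tensors whose product lies in `V`. -/
noncomputable def pre (V : Submodule K A) : Submodule K (A ⊗[K] A) := V.comap (mt m)

/-- `V` is closed: a product of tensors lies in `V` only for tensors in `V ⊗ V`. -/
def Closed (V : Submodule K A) : Prop := pre m V ≤ sq V

/-- `V` generates the algebra. -/
def Gen (V : Submodule K A) : Prop :=
  ∀ S : Submodule K A, V ≤ S → (∀ x ∈ S, ∀ y ∈ S, m x y ∈ S) → S = ⊤

/-- `V` is reduced. -/
def Red (V : Submodule K A) : Prop := (pre m V).map (mt m) ≤ supp (pre m V)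

/-- The universal property of `A` with respect to `V` (and the multiplication as far as it stays
inside `V`). -/
def UP (V : Submodule K A) : Prop :=
  ∀ (B : Type) [AddCommGroup B] [Module K B] (m' : B →ₗ[K] B →ₗ[K] B) (j : V →ₗ[K] B),
    (∀ (w : V ⊗[K] V) (v : V), mt m (TensorProduct.map V.subtype V.subtype w) = v →
      mt m' (TensorProduct.map j j w) = j v) →
    ∃ φ : A →ₗ[K] B, IsHom m m' φ ∧ ∀ v : V, φ v = j v

end abstract

/-! ### Normal form data -/

/-- Normal form data over `K`: `n`, a projection `P` of `K ^ (n × n)` (its kernel is the space of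
relations) and a linear map `M : K ^ (n × n) → K ^ n` vanishing on the image of `P`. -/
structure ND (K : Type) [Field K] where
  n : ℕ
  P : (Fin n × Fin n → K) →ₗ[K] (Fin n × Fin n → K)
  M : (Fin n × Fin n → K) →ₗ[K] (Fin n → K)

section ND

variable {K : Type} [Field K]

/-- The tensor square of a linear map on coordinates. -/
noncomputable def tsq {n k : ℕ} (g : (Fin n → K) →ₗ[K] (Fin k → K)) :
    (Fin n × Fin n → K) →ₗ[K] (Fin k × Fin k → K) where
  toFun z := fun ab => ∑ c : Fin n, ∑ d : Fin n,
    z (c, d) * (g (Pi.single c 1) ab.1 * g (Pi.single d 1) ab.2)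
  map_add' z z' := by
    funext ab
    simp only [Pi.add_apply, add_mul, Finset.sum_add_distrib]
  map_smul' a z := by
    funext ab
    simp only [Pi.smul_apply, smul_eq_mul, RingHom.id_apply, Finset.mul_sum, mul_assoc]

/-- The pure tensor of two vectors. -/
def tens {n : ℕ} (x y : Fin n → K) : Fin n × Fin n → K := fun ab => x ab.1 * y ab.2

/-- Isomorphisms of normal form data. -/
def NIso (D D' : ND K) : Prop :=
  ∃ g : (Fin D.n → K) ≃ₗ[K] (Fin D'.n → K),
    ∀ z, (D.P z = 0 ↔ D'.P (tsq g.toLinearMap z) = 0) ∧
      (D.P z = 0 → g (D.M z) = D'.M (tsq g.toLinearMap z))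

/-- The identities satisfied by normal form data. -/
def ND.Ok (D : ND K) : Prop := (∀ z, D.P (D.P z) = D.P z) ∧ ∀ z, D.M (D.P z) = 0

/-- The data are reduced: the image of `M` is contained in the span of all rows and columns of the
elements of the kernel of `P`. -/
def ND.Rd (D : ND K) : Prop :=
  ∀ z, D.M z ∈ Submodule.span K {x : Fin D.n → K | ∃ w, D.P w = 0 ∧ ∃ i : Fin D.n,
    x = (fun a => w (i, a)) ∨ x = (fun a => w (a, i))}

variable {A : Type} [AddCommGroup A] [Module K A] (m : A →ₗ[K] A →ₗ[K] A)

/-- The vector with given coordinates. -/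
noncomputable def vec {n : ℕ} (x : Fin n → A) (c : Fin n → K) : A := ∑ a, c a • x a

/-- The product of a tensor given by coordinates. -/
noncomputable def prodc {n : ℕ} (x : Fin n → A) (z : Fin n × Fin n → K) : A :=
  ∑ a, ∑ b, z (a, b) • m (x a) (x b)

/-- The family `x` in the algebra `A` realises the normal form data `D`. -/
structure Realises (D : ND K) (x : Fin D.n → A) : Prop where
  indep : LinearIndependent K x
  closed : Closed m (Submodule.span K (Set.range x))
  gen : Gen m (Submodule.span K (Set.range x))
  mem : ∀ z, prodc m x z ∈ Submodule.span K (Set.range x) ↔ D.P z = 0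
  mul : ∀ z, D.P z = 0 → prodc m x z = vec x (D.M z)

/-- The finite-dimensional algebra which encodes normal form data: its underlying space is
`K × K^n × K^n × K^(n × n)`. -/
def ND.mul (D : ND K) (s t : K × (Fin D.n → K) × (Fin D.n → K) × (Fin D.n × Fin D.n → K)) :
    K × (Fin D.n → K) × (Fin D.n → K) × (Fin D.n × Fin D.n → K) :=
  (s.1 * t.1, 0, s.1 • t.2.1 + D.M (tens s.2.1 t.2.1), D.P (tens s.2.1 t.2.1))

end ND

/-! ### Codes of normal form data -/

/-- Codes of normal form data: `n`, the matrix of `P`, the matrix of `M`. -/
abbrev NC (C : Type) : Type := ℕ × (List C × List C)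

/-- The normal form data with a given code: the entry of `P` in row `(a, b)` and column `(c, d)` is
the entry number `(a n + b) n² + (c n + d)` of the first list, the entry of `M` in row `a` and column
`(c, d)` is the entry number `a n² + (c n + d)` of the second list. -/
def ndOf {K C : Type} [Field K] (val : C → K) (c : NC C) : ND K where
  n := c.1
  P :=
    { toFun := fun z ab => ∑ cd : Fin c.1 × Fin c.1,
        entry val c.2.1 ((ab.1 * c.1 + ab.2) * (c.1 * c.1) + (cd.1 * c.1 + cd.2)) * z cd
      map_add' := by
        intro z z'
        funext ab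
        simp only [Pi.add_apply, mul_add, Finset.sum_add_distrib]
      map_smul' := by
        intro a z
        funext ab
        simp only [Pi.smul_apply, smul_eq_mul, RingHom.id_apply, Finset.mul_sum]
        exact Finset.sum_congr rfl (fun _ _ => by ring) }
  M :=
    { toFun := fun z a => ∑ cd : Fin c.1 × Fin c.1,
        entry val c.2.2 (a * (c.1 * c.1) + (cd.1 * c.1 + cd.2)) * z cd
      map_add' := by
        intro z z'
        funext ab
        simp only [Pi.add_apply, mul_add, Finset.sum_add_distrib]
      map_smul' := by
        intro a z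
        funext ab
        simp only [Pi.smul_apply, smul_eq_mul, RingHom.id_apply, Finset.mul_sum]
        exact Finset.sum_congr rfl (fun _ _ => by ring) }

section coded

variable {K C : Type} [Field K] [Primcodable C] (N : NumF K C)

/-- The code of the `i`-th entry of a list. -/
def NumF.ent (l : List C) (i : ℕ) : C := (l[i]?).getD N.zero

/-- The presentation given by normal form data: for all `i, j < n` the relator
`x_i x_j - ∑ P_(ab)(ij) x_a x_b - ∑ M_a(ij) x_a`. -/
def npres (c : NC C) : Pres C :=
  (c.1, (List.range c.1).flatMap (fun i => (List.range c.1).map (fun j =>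
    (N.one, [i + 1, j + 1, 0]) ::
      (((List.range c.1).flatMap (fun a => (List.range c.1).map (fun b =>
        (N.neg (N.ent c.2.1 ((a * c.1 + b) * (c.1 * c.1) + (i * c.1 + j))), [a + 1, b + 1, 0])))) ++
      (List.range c.1).map (fun a =>
        (N.neg (N.ent c.2.2 (a * (c.1 * c.1) + (i * c.1 + j))), [a + 1]))))))

/-- The coefficient of `e_k` in `e_i e_j` in the finite-dimensional algebra which encodes normal form
data; the basis is `e_0` (the marker), `e_1, ..., e_n` (`V`), `e_(n+1), ..., e_(2n)` (copy of `V`),
`e_(2n+1), ..., e_(2n+n²)` (`V ⊗ V`). -/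
def ecoef (c : NC C) (i j k : ℕ) : C :=
  if i = 0 then
    (if j = 0 then (if k = 0 then N.one else N.zero)
      else if j ≤ c.1 then (if k = c.1 + j then N.one else N.zero) else N.zero)
  else if i ≤ c.1 ∧ 1 ≤ j ∧ j ≤ c.1 then
    (if k ≤ c.1 then N.zero
      else if k ≤ 2 * c.1 then
        N.ent c.2.2 ((k - c.1 - 1) * (c.1 * c.1) + ((i - 1) * c.1 + (j - 1)))
      else N.ent c.2.1 ((k - 2 * c.1 - 1) * (c.1 * c.1) + ((i - 1) * c.1 + (j - 1))))
  else N.zero

/-- The dimension of the encoding algebra. -/
def edim (n : ℕ) : ℕ := 1 + n + n + n * n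

/-- The structure constants of the finite-dimensional algebra which encodes normal form data. -/
def ecode (c : NC C) : FD C :=
  (edim c.1, (List.range (edim c.1)).flatMap (fun i => (List.range (edim c.1)).flatMap (fun j =>
    (List.range (edim c.1)).map (fun k => ecoef N c i j k))))

/-- The presentation of a finite-dimensional algebra: for all `i, j < n` the relator
`x_i x_j - ∑ c_(ij)^k x_k`. -/
def fdPres (d : FD C) : Pres C :=
  (d.1, (List.range d.1).flatMap (fun i => (List.range d.1).map (fun j =>
    (N.one, [i + 1, j + 1, 0]) :: (List.range d.1).map (fun k =>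
      (N.neg (N.ent d.2 ((i * d.1 + j) * d.1 + k)), [k + 1])))))

end coded

end Pool.Agent.Work.MP_9ac17e_al
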