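import Pool.Agent.Work.MP_9ac17e_al.NPres
import Pool.Agent.Work.MP_9ac17e_al.Bd.B01

/-!
# The isomorphism problem of finitely presented algebras is many-one equivalent to the isomorphism
problem of finite-dimensional algebras
-/

set_option autoImplicit false

namespace Pool.Agent.Work.MP_9ac17e_al

section coded

variable {K C : Type} [Field K] [Primcodable C] (N : NumF K C)

omit [Primcodable C] in
theorem presIso_symm {val : C → K} {p q : Pres C} (h : PresIso val p q) : PresIso val q p := by
  rw [presIso_iff] at h ⊢
  obtain ⟨e, he⟩ := h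
  refine ⟨e.symm, fun x y => ?_⟩
  apply e.injective
  rw [he, e.apply_symm_apply, e.apply_symm_apply, e.apply_symm_apply]

omit [Primcodable C] in
theorem presIso_trans {val : C → K} {p q r : Pres C} (h : PresIso val p q)
    (h' : PresIso val q r) : PresIso val p r := by
  rw [presIso_iff] at h h' ⊢
  obtain ⟨e, he⟩ := h
  obtain ⟨e', he'⟩ := h'
  exact ⟨e.trans e', fun x y => by
    rw [LinearEquiv.trans_apply, LinearEquiv.trans_apply, LinearEquiv.trans_apply, he, he']⟩

/-- The normal form algebras are isomorphic if and only if the encoding algebras are. -/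
theorem presIso_npres_iff (c c' : NC C) (h : (ndOf N.val c).Ok) (hr : (ndOf N.val c).Rd)
    (h' : (ndOf N.val c').Ok) (hr' : (ndOf N.val c').Rd) :
    PresIso N.val (npres N c) (npres N c') ↔ FDIso N.val (ecode N c) (ecode N c') := by
  have hx := realises_npres N c h
  have hx' := realises_npres N c' h'
  have h1 : NIso (ndOf N.val c) (ndOf N.val c') ↔ FDIso N.val (ecode N c) (ecode N c') :=
    (niso_iff _ _ h h').trans (fdIso_ecode N c c').symm
  rw [presIso_iff, ← h1]
  exact ⟨fun hi => niso_of_algIso _ _ h h' hr hr' hx hx' hi,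
    fun hi => algIso_of_niso _ _ h h' hx hx' hi⟩

/-- **The reduction of presentations to finite-dimensional algebras.** The same computable function
reduces isomorphism over every extension field `L` of `K`. -/
theorem exists_reduction (hs : Function.Surjective N.val) :
    ∃ f : Pres C → FD C, Computable f ∧
      ∀ (L : Type) [Field L] [Algebra K L] (p q : Pres C),
        PresIso (fun c => algebraMap K L (N.val c)) p q ↔
          FDIso (fun c => algebraMap K L (N.val c)) (f p) (f q) := by
  have hsig : PR.Sig (fun x : Pres C × NC C => ((ndOf N.val x.2).Ok ∧ (ndOf N.val x.2).Rd) ∧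
      PresIso N.val x.1 (npres N x.2)) := by
    refine PR.Sig.and (PR.Sig.comp (sig_valid N hs) (f := fun x : Pres C × NC C => x.2)
      (by fun_prop))
      (PR.Sig.comp (sig_presIso N hs) (f := fun x : Pres C × NC C => (x.1, npres N x.2)) ?_)
    exact Primrec.fst.pair ((primrec_npres N).comp Primrec.snd)
  obtain ⟨g, hg, hP⟩ := PR.Sig.select hsig (fun p => by
    obtain ⟨c, h1, h2, h3⟩ := exists_npres N hs p
    exact ⟨c, ⟨h1, h2⟩, h3⟩)
  refine ⟨fun p => ecode N (g p), (primrec_ecode N).to_comp.comp hg, fun L _ _ p q => ?_⟩
  obtain ⟨⟨h1, h2⟩, h3⟩ := hP p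
  obtain ⟨⟨h1', h2'⟩, h3'⟩ := hP q
  have h4 := presIso_base N hs L _ _ h3
  have h4' := presIso_base N hs L _ _ h3'
  have h5 := presIso_npres_iff (N.base L) (g p) (g q) (ok_base N.val _ h1) (rd_base N.val _ h1 h2)
    (ok_base N.val _ h1') (rd_base N.val _ h1' h2')
  refine Iff.trans ?_ h5
  exact ⟨fun h => presIso_trans (presIso_symm h4) (presIso_trans h h4'),
    fun h => presIso_trans h4 (presIso_trans h (presIso_symm h4'))⟩

/-- **The main theorem** for fields with a primitive recursive numbering. -/
theorem main_equiv (hs : Function.Surjective N.val) :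
    ManyOneEquiv (fun q : Pres C × Pres C => PresIso N.val q.1 q.2)
      (fun q : FD C × FD C => FDIso N.val q.1 q.2) := by
  constructor
  · obtain ⟨f, hf, hiff⟩ := exists_reduction N hs
    refine ⟨fun q => (f q.1, f q.2), (hf.comp Computable.fst).pair (hf.comp Computable.snd),
      fun q => ?_⟩
    have h := hiff K q.1 q.2
    simpa using h
  · refine ⟨fun q => (fdPres N q.1, fdPres N q.2), ?_, fun q => (presIso_fdPres N q.1 q.2).symm⟩
    exact ((primrec_fdPres N).to_comp.comp Computable.fst).pair
      ((primrec_fdPres N).to_comp.comp Computable.snd)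

/-- The same equivalence for isomorphism over an extension field. -/
theorem main_equiv_base (hs : Function.Surjective N.val) (L : Type) [Field L] [Algebra K L] :
    ManyOneEquiv (fun q : Pres C × Pres C => PresIso (fun c => algebraMap K L (N.val c)) q.1 q.2)
      (fun q : FD C × FD C => FDIso (fun c => algebraMap K L (N.val c)) q.1 q.2) := by
  constructor
  · obtain ⟨f, hf, hiff⟩ := exists_reduction N hs
    exact ⟨fun q => (f q.1, f q.2), (hf.comp Computable.fst).pair (hf.comp Computable.snd),
      fun q => hiff L q.1 q.2⟩
  · refine ⟨fun q => (fdPres N q.1, fdPres N q.2), ?_,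
      fun q => (presIso_fdPres (N.base L) q.1 q.2).symm⟩
    exact ((primrec_fdPres N).to_comp.comp Computable.fst).pair
      ((primrec_fdPres N).to_comp.comp Computable.snd)

end coded

end Pool.Agent.Work.MP_9ac17e_al
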