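import Pool.Agent.Work.MP_9ac17e_al.Bd.B01

/-!
# Normal form presentations (item I9), second part
-/

set_option autoImplicit false

namespace Pool.Agent.Work.MP_9ac17e_al

open TensorProduct NPresAux

variable {K C : Type} [Field K] [Primcodable C] (N : NumF K C)

theorem exists_npres (hs : Function.Surjective N.val) (p : Pres C) : ∃ c : NC C, (ndOf N.val c).Ok ∧ (ndOf N.val c).Rd ∧
    PresIso N.val p (npres N c) := by
  obtain ⟨V, hV, hG, hC⟩ := exists_closed N.val p
  obtain ⟨V', hV', hG', hC', hR'⟩ := exists_reduced _ hV hG hC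
  obtain ⟨D, x, hD, hx, hsp⟩ := exists_realises _ hV' hG' hC'
  obtain ⟨c, rfl⟩ := NPresAux.exists_ndOf N hs D
  refine ⟨c, hD, ?_, ?_⟩
  · rw [← red_iff_rd _ hD hx, hsp]
    exact hR'
  · rw [presIso_iff]
    exact algIso_of_niso _ _ hD hD hx (realises_npres N c hD) (NPresAux.niso_refl _)

end Pool.Agent.Work.MP_9ac17e_al
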